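import Pool.Agent.Run7.h506.TA.Stm

/-! Piece `CONF` of helper506's project TA. -/

set_option autoImplicit false

namespace Pool.Agent.Run7.h171.TA

open Pool.Agent.Run7.h506.TA Set Filter Topology

theorem t_CONF : S_CONF := by
  intro G M t0 T hG hM y q k k' g H t ht
  have hpi : (0 : ℝ) < Real.pi := Real.pi_pos
  have hsM : 0 < Real.sqrt M := Real.sqrt_pos.2 hM
  have hkpos : ∀ s ∈ Icc t0 T, 0 < k s := fun s hs =>
    lt_of_lt_of_le (mul_pos hM (Real.exp_pos _)) (H s hs).2.2.2.2.1
  set C : ℝ := 8 * G / Real.sqrt M with hC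
  have hC0 : 0 ≤ C := by positivity
  set Z : ℝ → ℝ := fun s => q s ^ 2 / (2 * k s) +
    (1 - Real.cos (2 * Real.pi * y s)) / (4 * Real.pi ^ 2) with hZ
  have hZ0 : ∀ s ∈ Icc t0 T, 0 ≤ Z s := by
    intro s hs
    have h1 := hkpos s hs
    have h2 : Real.cos (2 * Real.pi * y s) ≤ 1 := Real.cos_le_one _
    have h3 : 0 ≤ q s ^ 2 / (2 * k s) := by positivity
    have h4 : 0 ≤ (1 - Real.cos (2 * Real.pi * y s)) / (4 * Real.pi ^ 2) :=
      div_nonneg (by linarith) (by positivity)
    exact add_nonneg h3 h4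
  have hZd : ∀ s ∈ Icc t0 T, HasDerivAt Z (q s * g s / k s - k' s * q s ^ 2 / (2 * k s ^ 2)) s := by
    intro s hs
    obtain ⟨h1, h2, h3, _, _, _⟩ := H s hs
    have hk := hkpos s hs
    have hd1 := (h2.pow 2).div (h3.const_mul 2) (by positivity : (2 : ℝ) * k s ≠ 0)
    have hd2 := ((((h1.const_mul (2 * Real.pi)).cos).const_sub 1).div_const (4 * Real.pi ^ 2))
    have hd := hd1.add hd2
    refine hd.congr_deriv ?_
    simp only [Nat.cast_ofNat, Nat.add_one_sub_one, pow_one, Pi.pow_apply]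
    field_simp
    ring
  set F : ℝ → ℝ := fun s => (1 / 2 + Z s) * Real.exp (C * Real.exp (-(s - t0) / 8)) with hF
  have hFd : ∀ s ∈ Icc t0 T, HasDerivAt F
      ((q s * g s / k s - k' s * q s ^ 2 / (2 * k s ^ 2)) *
          Real.exp (C * Real.exp (-(s - t0) / 8)) +
        (1 / 2 + Z s) * (Real.exp (C * Real.exp (-(s - t0) / 8)) *
          (C * (Real.exp (-(s - t0) / 8) * (-1 / 8))))) s := by
    intro s hs
    have h1 : HasDerivAt (fun s : ℝ => -(s - t0) / 8) (-1 / 8) s :=
      (((hasDerivAt_id s).sub_const t0).neg).div_const 8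
    have h2 := (h1.exp.const_mul C).exp
    exact ((hZd s hs).const_add (1 / 2)).mul h2
  have hneg : ∀ s ∈ Icc t0 T,
      (q s * g s / k s - k' s * q s ^ 2 / (2 * k s ^ 2)) *
          Real.exp (C * Real.exp (-(s - t0) / 8)) +
        (1 / 2 + Z s) * (Real.exp (C * Real.exp (-(s - t0) / 8)) *
          (C * (Real.exp (-(s - t0) / 8) * (-1 / 8)))) ≤ 0 := by
    intro s hs
    obtain ⟨_, _, _, hk', hkM, hgG⟩ := H s hs
    have hk := hkpos s hs
    have hsk : 0 < Real.sqrt (k s) := Real.sqrt_pos.2 hk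
    have hsksq : Real.sqrt (k s) ^ 2 = k s := Real.sq_sqrt hk.le
    have hsMsq : Real.sqrt M ^ 2 = M := Real.sq_sqrt hM.le
    -- `√M e^{(s-t0)/8} ≤ √k`
    have hroot : Real.sqrt M * Real.exp ((s - t0) / 8) ≤ Real.sqrt (k s) := by
      apply Real.le_sqrt_of_sq_le
      rw [mul_pow, hsMsq, ← Real.exp_nat_mul]
      have : ((2 : ℕ) : ℝ) * ((s - t0) / 8) = (s - t0) / 4 := by push_cast; ring
      rw [this]
      exact hkM
    have hinv : 1 / Real.sqrt (k s) ≤ Real.exp (-(s - t0) / 8) / Real.sqrt M := by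
      rw [div_le_div_iff₀ hsk hsM, one_mul]
      have h1 : Real.exp (-(s - t0) / 8) * Real.exp ((s - t0) / 8) = 1 := by
        rw [← Real.exp_add]
        have : -(s - t0) / 8 + (s - t0) / 8 = 0 := by ring
        rw [this, Real.exp_zero]
      calc Real.sqrt M = Real.exp (-(s - t0) / 8) * (Real.sqrt M * Real.exp ((s - t0) / 8)) := by
            rw [mul_left_comm, h1, mul_one]
        _ ≤ Real.exp (-(s - t0) / 8) * Real.sqrt (k s) :=
            mul_le_mul_of_nonneg_left hroot (Real.exp_pos _).le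
    -- `|q|/k ≤ (1/√k)(1/2 + q²/(2k))`
    have hqk : |q s| / k s ≤ 1 / Real.sqrt (k s) * (1 / 2 + Z s) := by
      have h1 : 1 / 2 + q s ^ 2 / (2 * k s) ≤ 1 / 2 + Z s := by
        have h2 : Real.cos (2 * Real.pi * y s) ≤ 1 := Real.cos_le_one _
        have h4 : 0 ≤ (1 - Real.cos (2 * Real.pi * y s)) / (4 * Real.pi ^ 2) :=
          div_nonneg (by linarith) (by positivity)
        simp only [hZ]; linarith
      have h5 : |q s| / k s ≤ 1 / Real.sqrt (k s) * (1 / 2 + q s ^ 2 / (2 * k s)) := by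
        have h6 : 1 / Real.sqrt (k s) * (1 / 2 + q s ^ 2 / (2 * k s)) - |q s| / k s
            = (|q s| / Real.sqrt (k s) - 1) ^ 2 / (2 * Real.sqrt (k s)) := by
          have hq2 : q s ^ 2 = |q s| ^ 2 := (sq_abs _).symm
          rw [hq2]
          conv_lhs => rw [← hsksq]
          rw [Real.sqrt_sq hsk.le]
          field_simp
          ring
        have h7 : 0 ≤ (|q s| / Real.sqrt (k s) - 1) ^ 2 / (2 * Real.sqrt (k s)) := by positivity
        linarith
      exact h5.trans (mul_le_mul_of_nonneg_left h1 (by positivity))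
    have hmain : q s * g s / k s - k' s * q s ^ 2 / (2 * k s ^ 2) ≤
        (1 / 2 + Z s) * (C * (Real.exp (-(s - t0) / 8) * (1 / 8))) := by
      have h1 : 0 ≤ k' s * q s ^ 2 / (2 * k s ^ 2) := by positivity
      have h2 : q s * g s / k s ≤ G * (|q s| / k s) := by
        have : q s * g s ≤ |q s| * G := by
          calc q s * g s ≤ |q s * g s| := le_abs_self _
            _ = |q s| * |g s| := abs_mul _ _
            _ ≤ |q s| * G := mul_le_mul_of_nonneg_left hgG (abs_nonneg _)
        calc q s * g s / k s ≤ |q s| * G / k s := div_le_div_of_nonneg_right this hk.le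
          _ = G * (|q s| / k s) := by ring
      have h3 : G * (|q s| / k s) ≤
          G * (Real.exp (-(s - t0) / 8) / Real.sqrt M * (1 / 2 + Z s)) := by
        apply mul_le_mul_of_nonneg_left _ hG
        have hz := hZ0 s hs
        exact hqk.trans (mul_le_mul_of_nonneg_right hinv (by linarith))
      have h4 : G * (Real.exp (-(s - t0) / 8) / Real.sqrt M * (1 / 2 + Z s)) =
          (1 / 2 + Z s) * (C * (Real.exp (-(s - t0) / 8) * (1 / 8))) := by
        rw [hC]; ring
      linarith
    have hexp := Real.exp_pos (C * Real.exp (-(s - t0) / 8))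
    have h8 := mul_le_mul_of_nonneg_right hmain hexp.le
    nlinarith [h8]
  have hanti : AntitoneOn F (Icc t0 T) := by
    apply antitoneOn_of_deriv_nonpos (convex_Icc t0 T)
    · exact fun s hs => (hFd s hs).continuousAt.continuousWithinAt
    · exact fun s hs => (hFd s (interior_subset hs)).differentiableAt.differentiableWithinAt
    · intro s hs
      rw [(hFd s (interior_subset hs)).deriv]
      exact hneg s (interior_subset hs)
  have ht0 : t0 ∈ Icc t0 T := ⟨le_refl _, ht.1.trans ht.2⟩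
  have hle := hanti ht0 ht ht.1
  have hF0 : F t0 = (1 / 2 + Z t0) * Real.exp C := by
    simp only [hF, sub_self, neg_zero, zero_div, Real.exp_zero, mul_one]
  have hFt : 1 / 2 + Z t ≤ F t := by
    have h1 : (1 : ℝ) ≤ Real.exp (C * Real.exp (-(t - t0) / 8)) :=
      Real.one_le_exp (by positivity)
    have h2 := hZ0 t ht
    simp only [hF]
    nlinarith
  have hfin : 1 / 2 + Z t ≤ (1 / 2 + Z t0) * Real.exp C := by
    calc 1 / 2 + Z t ≤ F t := hFt
      _ ≤ F t0 := hle
      _ = _ := hF0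
  simp only [hZ] at hfin
  linarith

end Pool.Agent.Run7.h171.TA
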