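import Pool.Agent.Run7.h506.TA.Stm
import Pool.Agent.W819.TL.SUP
import Pool.Agent.W774.TL.Sum

/-! Piece `HSUP` of helper506's project TA. -/

set_option autoImplicit false

namespace Pool.Agent.Run7.h171.TA

open Pool.Agent.Run7.h506.TA Pool.Agent.W774.TL Set Filter Topology

theorem bet_nonneg {m : ℕ} (x : X m) : 0 ≤ bet x := by
  unfold bet
  apply Finset.sum_nonneg
  intro i _
  have h := Real.neg_one_le_cos (2 * Real.pi * x i.succ)
  have hp := Real.pi_pos
  exact div_nonneg (by linarith) (by positivity)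

theorem bet_le {m : ℕ} (x : X m) : bet x ≤ m := by
  unfold bet
  have hp := Real.pi_pos
  have hp3 := Real.pi_gt_three
  calc ∑ i : Fin m, (1 + Real.cos (2 * Real.pi * x i.succ)) / (4 * Real.pi ^ 2)
      ≤ ∑ _i : Fin m, (1 : ℝ) := by
        apply Finset.sum_le_sum
        intro i _
        have h := Real.cos_le_one (2 * Real.pi * x i.succ)
        rw [div_le_one (by positivity)]
        nlinarith
    _ = m := by simp

theorem norm_le_sum {m : ℕ} (p : X m) : ‖p‖ ≤ |p 0| + ∑ i : Fin m, |p i.succ| := by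
  rw [pi_norm_le_iff_of_nonneg (by positivity)]
  intro i
  rw [Real.norm_eq_abs]
  refine Fin.cases ?_ (fun j => ?_) i
  · have : 0 ≤ ∑ i : Fin m, |p i.succ| := Finset.sum_nonneg fun _ _ => abs_nonneg _
    linarith
  · have h1 : |p j.succ| ≤ ∑ i : Fin m, |p i.succ| :=
      Finset.single_le_sum (f := fun i : Fin m => |p i.succ|) (fun _ _ => abs_nonneg _)
        (Finset.mem_univ j)
    have := abs_nonneg (p 0)
    linarith

theorem t_HSUP : S_KF → S_HSUP := by
  intro hKF m c hc
  obtain ⟨hlow, hup⟩ := Pool.Agent.W819.TL.sup_thm sum_thm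
  have hK := (hKF c hc).2
  refine ⟨?_, ?_⟩
  · intro R
    set R' := |R| with hR'
    have hR0 : 0 ≤ R' := abs_nonneg R
    obtain ⟨B, hB⟩ := hlow (R' + c * m)
    refine ⟨B + c * m + m * (R' ^ 2 / 2), fun x v t => ?_⟩
    have h1 := hB (x 0) (v 0) t
    obtain ⟨_, _, _, _, _, _, hKge, hKle, _, _⟩ := hK (v 0)
    have hb0 := bet_nonneg x
    have hb1 := bet_le x
    have hm : (0 : ℝ) ≤ m := Nat.cast_nonneg m
    have h2 : K c (v 0) * bet x ≤ c * (1 + |v 0|) * m :=
      mul_le_mul hKle hb1 hb0 (by positivity)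
    have h3 : ∑ i : Fin m, (R' * |v i.succ| - R' ^ 2 / 2) ≤ ∑ i : Fin m, v i.succ ^ 2 / 2 := by
      apply Finset.sum_le_sum
      intro i _
      have h4 : v i.succ ^ 2 = |v i.succ| ^ 2 := (sq_abs _).symm
      rw [h4]
      nlinarith [sq_nonneg (|v i.succ| - R')]
    rw [Finset.sum_sub_distrib, ← Finset.mul_sum, Finset.sum_const, Finset.card_univ,
      Fintype.card_fin, nsmul_eq_mul] at h3
    have h5 : R * ‖v‖ ≤ R' * ‖v‖ := mul_le_mul_of_nonneg_right (le_abs_self R) (norm_nonneg v)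
    have h6 : R' * ‖v‖ ≤ R' * (|v 0| + ∑ i : Fin m, |v i.succ|) :=
      mul_le_mul_of_nonneg_left (norm_le_sum v) hR0
    unfold HH
    nlinarith
  · intro R
    obtain ⟨B, hB⟩ := hup R
    refine ⟨B + m * (R ^ 2 / 2), fun x p t hp => ?_⟩
    have habs : ∀ i, |p i| ≤ R := fun i => by
      have := (norm_le_pi_norm p i).trans hp
      rwa [Real.norm_eq_abs] at this
    have h1 := hB (x 0) (p 0) t (habs 0)
    obtain ⟨_, _, _, _, _, _, hKge, hKle, _, _⟩ := hK (p 0)
    have hb0 := bet_nonneg x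
    have h2 : 0 ≤ K c (p 0) * bet x := mul_nonneg (hc.le.trans hKge) hb0
    have h3 : ∑ i : Fin m, p i.succ ^ 2 / 2 ≤ ∑ _i : Fin m, R ^ 2 / 2 := by
      apply Finset.sum_le_sum
      intro i _
      have h4 := habs i.succ
      have h5 : p i.succ ^ 2 = |p i.succ| ^ 2 := (sq_abs _).symm
      rw [h5]
      have := abs_nonneg (p i.succ)
      nlinarith
    rw [Finset.sum_const, Finset.card_univ, Fintype.card_fin, nsmul_eq_mul] at h3
    unfold HH
    linarith

end Pool.Agent.Run7.h171.TA
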